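import Pool.Agent.H377R2.Stuck

/-! First passage in residue classes: starting points `x ≡ c` mod `q` whose orbit stays above `2^l`. -/

set_option autoImplicit false

namespace Pool.Agent.H828R3.PS

open Finset Pool.Agent.Helper894.Collatz Pool.Agent.H377R2

/-- few starting points in a class mod `q` share the end point, the length and the number of odd steps -/
theorem card_fiber_cls (N m A y q c : ℕ) (hq : 0 < q) :
    ((range N).filter (fun x => (T^[m] x = y ∧ od m x = A ∧ 2 * er m x ≤ m * 2 ^ m) ∧ x % q = c)).card ≤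
      m * 2 ^ m / (2 * 3 ^ A) / q + 1 := by
  set S := (range N).filter (fun x => (T^[m] x = y ∧ od m x = A ∧ 2 * er m x ≤ m * 2 ^ m) ∧ x % q = c) with hS
  rcases S.eq_empty_or_nonempty with h0 | h0
  · rw [h0]; simp
  · set a := S.min' h0 with ha
    have ha' : a ∈ S := S.min'_mem h0
    set W := m * 2 ^ m / (2 * 3 ^ A) with hW
    have hmem : ∀ x ∈ S, a ≤ x ∧ x ≤ a + W ∧ x % q = a % q := by
      intro x hx
      have h1 : a ≤ x := S.min'_le x hx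
      have ha2 := ha'
      rw [hS, mem_filter] at hx ha2
      obtain ⟨_, ⟨hx1, hx2, hx3⟩, hx4⟩ := hx
      obtain ⟨_, ⟨ha1, ha2, ha3⟩, ha4⟩ := ha2
      refine ⟨h1, ?_, by rw [hx4, ha4]⟩
      have e1 := iter_eq m x
      have e2 := iter_eq m a
      rw [hx1, hx2] at e1
      rw [ha1, ha2] at e2
      obtain ⟨d, rfl⟩ := Nat.exists_eq_add_of_le h1
      apply Nat.add_le_add_left
      rw [hW, Nat.le_div_iff_mul_le (by positivity)]
      have e3 : 3 ^ A * (a + d) = 3 ^ A * a + 3 ^ A * d := by ring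
      have e4 : d * (2 * 3 ^ A) = 2 * (3 ^ A * d) := by ring
      rw [e4]
      omega
    have hinj : Set.InjOn (fun x => (x - a) / q) (S : Set ℕ) := by
      intro x hx z hz hxz
      obtain ⟨h1, h2, h3⟩ := hmem x hx
      obtain ⟨h4, h5, h6⟩ := hmem z hz
      simp only at hxz
      have d1 : q ∣ x - a := (Nat.modEq_iff_dvd' h1).1 h3.symm
      have d2 : q ∣ z - a := (Nat.modEq_iff_dvd' h4).1 h6.symm
      obtain ⟨u, hu⟩ := d1
      obtain ⟨v, hv⟩ := d2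
      rw [hu, hv, Nat.mul_div_cancel_left _ hq, Nat.mul_div_cancel_left _ hq] at hxz
      subst hxz
      omega
    have hmaps : ∀ x ∈ S, (fun x => (x - a) / q) x ∈ range (W / q + 1) := by
      intro x hx
      obtain ⟨h1, h2, h3⟩ := hmem x hx
      rw [mem_range]
      have : (x - a) / q ≤ W / q := Nat.div_le_div_right (by omega)
      simp only
      omega
    have := card_le_card_of_injOn _ hmaps hinj
    rwa [card_range] at this

/-- the sum over the lengths -/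
theorem sum_fiber_cls (A D M q : ℕ) (hq : 0 < q) :
    ((∑ m ∈ (range (M + 1)).filter (fun m => 3 ^ A ≤ 2 ^ m ∧ 2 ^ m ≤ 3 ^ A * 2 ^ D),
      (m * 2 ^ m / (2 * 3 ^ A) / q + 1) : ℕ) : ℝ) ≤ (M + 1) * ((2 : ℝ) ^ D / q + 1) := by
  have hqR : (0 : ℝ) < q := by exact_mod_cast hq
  set F := (range (M + 1)).filter (fun m => 3 ^ A ≤ 2 ^ m ∧ 2 ^ m ≤ 3 ^ A * 2 ^ D) with hF
  push_cast
  rw [sum_add_distrib, sum_const, nsmul_eq_mul, mul_one]
  have h1 : ∀ m ∈ F, ((m * 2 ^ m / (2 * 3 ^ A) / q : ℕ) : ℝ) ≤ (M / (2 * 3 ^ A * q)) * 2 ^ m := by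
    intro m hm
    rw [hF, mem_filter, mem_range] at hm
    have hmM : (m : ℝ) ≤ M := by exact_mod_cast (by omega : m ≤ M)
    calc ((m * 2 ^ m / (2 * 3 ^ A) / q : ℕ) : ℝ) ≤ ((m * 2 ^ m / (2 * 3 ^ A) : ℕ) : ℝ) / q := Nat.cast_div_le
      _ ≤ ((m * 2 ^ m : ℕ) : ℝ) / ((2 * 3 ^ A : ℕ) : ℝ) / q :=
          div_le_div_of_nonneg_right Nat.cast_div_le hqR.le
      _ = (m / (2 * 3 ^ A * q)) * 2 ^ m := by push_cast; field_simp
      _ ≤ _ := by
          apply mul_le_mul_of_nonneg_right _ (by positivity)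
          exact div_le_div_of_nonneg_right hmM (by positivity)
  have h2 : ∑ m ∈ F, (2 : ℝ) ^ m ≤ 2 * (3 ^ A * 2 ^ D) := by
    have h3 : ∑ m ∈ F, 2 ^ m ≤ 2 * (3 ^ A * 2 ^ D) := by
      refine le_trans (sum_le_sum_of_subset ?_) (sum_two_pow_le M (3 ^ A * 2 ^ D))
      intro m hm
      rw [hF, mem_filter] at hm
      rw [mem_filter]
      exact ⟨hm.1, hm.2.2⟩
    exact_mod_cast h3
  have h4 : (F.card : ℝ) ≤ M + 1 := by
    have := card_filter_le (range (M + 1)) (fun m => 3 ^ A ≤ 2 ^ m ∧ 2 ^ m ≤ 3 ^ A * 2 ^ D)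
    rw [card_range] at this
    exact_mod_cast this
  have h5 : ∑ m ∈ F, ((m * 2 ^ m / (2 * 3 ^ A) / q : ℕ) : ℝ) ≤ (M + 1) * ((2 : ℝ) ^ D / q) := by
    calc ∑ m ∈ F, ((m * 2 ^ m / (2 * 3 ^ A) / q : ℕ) : ℝ)
        ≤ ∑ m ∈ F, ((M : ℝ) / (2 * 3 ^ A * q)) * 2 ^ m := sum_le_sum h1
      _ = ((M : ℝ) / (2 * 3 ^ A * q)) * ∑ m ∈ F, (2 : ℝ) ^ m := by rw [mul_sum]
      _ ≤ ((M : ℝ) / (2 * 3 ^ A * q)) * (2 * (3 ^ A * 2 ^ D)) :=
          mul_le_mul_of_nonneg_left h2 (by positivity)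
      _ = M * ((2 : ℝ) ^ D / q) := by field_simp
      _ ≤ _ := by
          apply mul_le_mul_of_nonneg_right _ (by positivity)
          linarith
  linarith

/-- THE MULTIPLICITY BOUND in classes mod `q` -/
theorem card_passage_cls (k i M q c : ℕ) (hq : 0 < q) (hik : i ≤ k) (hM : 2 * M ≤ 2 ^ i) (B : Finset ℕ)
    (hB : ∀ y ∈ B, 2 ^ i ≤ 2 * y) :
    (((range (2 ^ k)).filter (fun x => (0 < x ∧ ∃ m ≤ M, FP i m x ∧ T^[m] x ∈ B) ∧ x % q = c)).card : ℝ) ≤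
      B.card * ((M + 1) * ((M + 1) * ((2 : ℝ) ^ (k - i + 2) / q + 1))) := by
  classical
  set D := k - i + 2 with hD
  have hsub : (range (2 ^ k)).filter (fun x => (0 < x ∧ ∃ m ≤ M, FP i m x ∧ T^[m] x ∈ B) ∧ x % q = c) ⊆
      B.biUnion (fun y => (range (M + 1)).biUnion (fun A =>
        ((range (M + 1)).filter (fun m => 3 ^ A ≤ 2 ^ m ∧ 2 ^ m ≤ 3 ^ A * 2 ^ D)).biUnion
          (fun m => (range (2 ^ k)).filter
            (fun x => (T^[m] x = y ∧ od m x = A ∧ 2 * er m x ≤ m * 2 ^ m) ∧ x % q = c)))) := by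
    intro x hx
    rw [mem_filter, mem_range] at hx
    obtain ⟨hxk, ⟨hx0, m, hm, hfp, hB'⟩, hxc⟩ := hx
    simp only [mem_biUnion, mem_filter, mem_range]
    have hy := hB _ hB'
    obtain ⟨s1, s2⟩ := hfp.size hx0 hxk hik hy (by omega)
    have := od_le m x
    exact ⟨T^[m] x, hB', od m x, by omega, m, ⟨by omega, s1, s2⟩, hxk, ⟨rfl, rfl, er_le hx0 hfp.le⟩, hxc⟩
  have h1 : (((range (2 ^ k)).filter (fun x => (0 < x ∧ ∃ m ≤ M, FP i m x ∧ T^[m] x ∈ B) ∧ x % q = c)).card : ℝ) ≤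
      ((∑ _y ∈ B, ∑ A ∈ range (M + 1), ∑ m ∈ (range (M + 1)).filter (fun m => 3 ^ A ≤ 2 ^ m ∧ 2 ^ m ≤ 3 ^ A * 2 ^ D),
        (m * 2 ^ m / (2 * 3 ^ A) / q + 1) : ℕ) : ℝ) := by
    have : ((range (2 ^ k)).filter (fun x => (0 < x ∧ ∃ m ≤ M, FP i m x ∧ T^[m] x ∈ B) ∧ x % q = c)).card ≤
        ∑ _y ∈ B, ∑ A ∈ range (M + 1), ∑ m ∈ (range (M + 1)).filter (fun m => 3 ^ A ≤ 2 ^ m ∧ 2 ^ m ≤ 3 ^ A * 2 ^ D),
        (m * 2 ^ m / (2 * 3 ^ A) / q + 1) := by
      refine (card_le_card hsub).trans ?_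
      refine card_biUnion_le.trans (sum_le_sum fun y _ => ?_)
      refine card_biUnion_le.trans (sum_le_sum fun A _ => ?_)
      refine card_biUnion_le.trans (sum_le_sum fun m _ => ?_)
      exact card_fiber_cls (2 ^ k) m A y q c hq
    exact_mod_cast this
  refine h1.trans ?_
  push_cast
  have h2 : ∀ A ∈ range (M + 1), (∑ m ∈ (range (M + 1)).filter (fun m => 3 ^ A ≤ 2 ^ m ∧ 2 ^ m ≤ 3 ^ A * 2 ^ D),
        (((m * 2 ^ m / (2 * 3 ^ A) / q : ℕ) : ℝ) + 1)) ≤ (M + 1) * ((2 : ℝ) ^ D / q + 1) := by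
    intro A _
    have := sum_fiber_cls A D M q hq
    push_cast at this
    exact this
  calc ∑ _y ∈ B, ∑ A ∈ range (M + 1), ∑ m ∈ (range (M + 1)).filter (fun m => 3 ^ A ≤ 2 ^ m ∧ 2 ^ m ≤ 3 ^ A * 2 ^ D),
        (((m * 2 ^ m / (2 * 3 ^ A) / q : ℕ) : ℝ) + 1)
      ≤ ∑ _y ∈ B, ∑ _A ∈ range (M + 1), (M + 1) * ((2 : ℝ) ^ D / q + 1) :=
        sum_le_sum fun y _ => sum_le_sum h2
    _ = _ := by
        rw [sum_const, sum_const, card_range, nsmul_eq_mul, nsmul_eq_mul]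
        push_cast; ring

/-- starting points in a class mod `q` that stay above `2^l` -/
theorem card_stay_cls (k l q c : ℕ) (hq : 0 < q) (hM : 2 * (k * k) ≤ 2 ^ l) (hlk : l ≤ k)
    (S : Finset ℕ) (hS : ∀ x ∈ S, 0 < x ∧ x < 2 ^ k ∧ x % q = c ∧ ∀ m, 2 ^ l ≤ T^[m] x) :
    (S.card : ℝ) ≤ 2 * (k * k + 1) ^ 2 * k * 2 ^ k * (4 * rho ^ l / q + rho ^ k) := by
  classical
  have hqR : (0 : ℝ) < q := by exact_mod_cast hq
  have hsub : S ⊆ (Ioc l k).biUnion (fun i => (range (2 ^ k)).filter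
      (fun x => (0 < x ∧ ∃ m ≤ k * k, FP i m x ∧ T^[m] x ∈ stuck i (min i k)) ∧ x % q = c)) := by
    intro x hx
    obtain ⟨h1, h2, h3, h4⟩ := hS x hx
    by_contra hcon
    simp only [mem_biUnion, mem_Ioc, not_exists, not_and] at hcon
    obtain ⟨m, -, h⟩ := descend (l := l) (s := k) h1 h2 (fun i hi hik hb => by
      apply hcon i ⟨hi, hik⟩
      rw [bad, mem_filter] at hb
      rw [mem_filter]
      exact ⟨hb.1, hb.2, h3⟩) (k - l) (by omega)
    have h5 := h.2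
    have h6 := h4 m
    have e : k - (k - l) = l := by omega
    rw [e] at h5
    omega
  have h1 : (S.card : ℝ) ≤ ∑ i ∈ Ioc l k, (((range (2 ^ k)).filter
      (fun x => (0 < x ∧ ∃ m ≤ k * k, FP i m x ∧ T^[m] x ∈ stuck i (min i k)) ∧ x % q = c)).card : ℝ) := by
    exact_mod_cast (card_le_card hsub).trans card_biUnion_le
  have hr0 := rho_pos
  have hr1 := rho_lt_one
  have h2r : 1 ≤ 2 * rho := by unfold rho w; norm_num
  have h2 : ∀ i ∈ Ioc l k, (((range (2 ^ k)).filter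
      (fun x => (0 < x ∧ ∃ m ≤ k * k, FP i m x ∧ T^[m] x ∈ stuck i (min i k)) ∧ x % q = c)).card : ℝ) ≤
      2 * (k * k + 1) ^ 2 * 2 ^ k * (4 * rho ^ l / q + rho ^ k) := by
    intro i hi
    rw [mem_Ioc] at hi
    have hM' : 2 * (k * k) ≤ 2 ^ i := hM.trans (Nat.pow_le_pow_right (by norm_num) hi.1.le)
    have hmin : min i k = i := min_eq_left hi.2
    have a1 := card_passage_cls k i (k * k) q c hq hi.2 hM' (stuck i (min i k)) (by
      intro y hy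
      rw [stuck, mem_filter] at hy
      exact hy.2.1)
    rw [hmin] at a1 ⊢
    have a2 := card_stuck i i le_rfl
    refine a1.trans ?_
    push_cast
    have hri : rho ^ i ≤ rho ^ l := pow_le_pow_of_le_one hr0.le hr1.le hi.1.le
    have h2ri : (2 * rho) ^ i ≤ (2 * rho) ^ k := pow_le_pow_right₀ h2r hi.2
    have a4 : (2 : ℝ) ^ i * 2 ^ (k - i + 2) = 4 * 2 ^ k := by
      rw [← pow_add]
      have : i + (k - i + 2) = k + 2 := by omega
      rw [this, pow_add]; ring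
    calc ((stuck i i).card : ℝ) * ((k * k + 1) * ((k * k + 1) * ((2 : ℝ) ^ (k - i + 2) / q + 1)))
        ≤ (2 * 2 ^ i * rho ^ i) * ((k * k + 1) * ((k * k + 1) * ((2 : ℝ) ^ (k - i + 2) / q + 1))) :=
          mul_le_mul_of_nonneg_right a2 (by positivity)
      _ = 2 * (k * k + 1) ^ 2 * ((2 ^ i * 2 ^ (k - i + 2)) * rho ^ i / q + (2 * rho) ^ i) := by
          rw [mul_pow]; field_simp
      _ = 2 * (k * k + 1) ^ 2 * (4 * 2 ^ k * rho ^ i / q + (2 * rho) ^ i) := by rw [a4]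
      _ ≤ 2 * (k * k + 1) ^ 2 * (4 * 2 ^ k * rho ^ l / q + (2 * rho) ^ k) := by
          apply mul_le_mul_of_nonneg_left _ (by positivity)
          apply add_le_add _ h2ri
          apply div_le_div_of_nonneg_right _ hqR.le
          exact mul_le_mul_of_nonneg_left hri (by positivity)
      _ = _ := by rw [mul_pow]; ring
  calc (S.card : ℝ) ≤ ∑ i ∈ Ioc l k, 2 * ((k : ℝ) * k + 1) ^ 2 * 2 ^ k * (4 * rho ^ l / q + rho ^ k) :=
        h1.trans (sum_le_sum h2)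
    _ = ((k - l : ℕ) : ℝ) * (2 * ((k : ℝ) * k + 1) ^ 2 * 2 ^ k * (4 * rho ^ l / q + rho ^ k)) := by
        rw [sum_const, Nat.card_Ioc, nsmul_eq_mul]
    _ ≤ (k : ℝ) * (2 * ((k : ℝ) * k + 1) ^ 2 * 2 ^ k * (4 * rho ^ l / q + rho ^ k)) := by
        apply mul_le_mul_of_nonneg_right _ (by positivity)
        exact_mod_cast Nat.sub_le _ _
    _ = _ := by ring

end Pool.Agent.H828R3.PS
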