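import Pool.Agent.H828R3.PS.Mid

/-! UNIFORM POWER SAVING for the integers whose Collatz orbit stays above `y`. -/

set_option autoImplicit false

namespace Pool.Agent.H828R3.PS

open Pool.Agent.H320R2.PD Pool.Agent.H499R2.ND Finset
open Pool.Agent.Helper894.Collatz (T)

/-- the small scales, all classes trivial -/
theorem pb_low {y t₁ A : ℝ} (hy : 2 ≤ y) (ht₁ : 1 ≤ t₁) (hA : 0 < A) (hhi : Real.log A ≤ t₁) :
    PB (StayAbove y) A 0 (1120000 * (2 * t₁) ^ 5 * y ^ (-(1 / 21) : ℝ)) := by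
  classical
  intro u v _
  have hy0 : 0 < y := by linarith
  have hyp : 0 < y ^ (-(1 / 21) : ℝ) := Real.rpow_pos_of_pos hy0 _
  set F := cls (StayAbove y) A (2 * A) 0 u v with hF
  rcases le_or_gt (2 * A) y with hsm | hbig
  · have : F = ∅ := by
      rw [eq_empty_iff_forall_notMem]
      intro x hx
      rw [hF, mem_cls] at hx
      have hx0 : 0 < x := hx.2.2.1.1
      have := stay_low y x hx.2.2.1 hx0
      linarith [hx.1.2]
    rw [this, card_empty, Nat.cast_zero]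
    positivity
  have h2A : 2 ≤ 2 * A := by linarith
  set V : ℝ := 2 * A * y ^ ((1 : ℝ) / 21) with hV
  have hy1 : 1 ≤ y ^ ((1 : ℝ) / 21) := Real.one_le_rpow (by linarith) (by norm_num)
  have hVA : 2 * A ≤ V := by rw [hV]; nlinarith
  have hup := Pool.Agent.H828R3.Exc.upper_real (x := 2 * A) (y := y) (V := V) h2A (by linarith) hVA
  set U := {n : ℕ | 1 ≤ n ∧ (n : ℝ) ≤ 2 * A ∧
      ¬ ∃ m, ((T^[m] n : ℕ) : ℝ) ≤ y ∧ ∀ j ≤ m, ((T^[j] n : ℕ) : ℝ) ≤ V} with hU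
  have hUfin : U.Finite := by
    apply (Set.finite_Icc 1 ⌊2 * A⌋₊).subset
    rintro n ⟨h1, h2, -⟩
    exact ⟨h1, Nat.le_floor h2⟩
  have hmem : ∀ x ∈ F, 1 ≤ x ∧ x.toNat ∈ U := by
    intro x hx
    rw [hF, mem_cls] at hx
    obtain ⟨⟨h1, h2⟩, h3, h4, h5⟩ := hx
    have hx1 : 1 ≤ x := h4.1
    have hx' : ((x.toNat : ℕ) : ℤ) = x := Int.toNat_of_nonneg (by omega)
    refine ⟨hx1, by omega, ?_, ?_⟩
    · have : ((x.toNat : ℤ) : ℝ) < 2 * A := by rw [hx']; exact h2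
      have h6 : ((x.toNat : ℕ) : ℝ) < 2 * A := by exact_mod_cast this
      exact h6.le
    · rintro ⟨m, hm1, -⟩
      exact absurd hm1 (not_le.2 (stayT h4 m))
  have hcard : (F.card : ℝ) ≤ (U.ncard : ℝ) := by
    have h1 : F.card = (F.image Int.toNat).card := by
      rw [card_image_of_injOn]
      intro x hx z hz hxz
      have h1 := (hmem x hx).1
      have h2 := (hmem z hz).1
      omega
    have h2 : ((F.image Int.toNat : Finset ℕ) : Set ℕ) ⊆ U := by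
      intro n hn
      rw [mem_coe, mem_image] at hn
      obtain ⟨x, hx, rfl⟩ := hn
      exact (hmem x hx).2
    have h3 := Set.ncard_le_ncard h2 hUfin
    rw [Set.ncard_coe_finset, ← h1] at h3
    exact_mod_cast h3
  refine hcard.trans (hup.trans ?_)
  have hVt : (2 * A) ^ 2 / V = 2 * A * y ^ (-(1 / 21) : ℝ) := by
    rw [hV, Real.rpow_neg hy0.le]
    field_simp
  rw [hVt]
  have hl2' := Real.log_two_lt_d9
  have hlog : Real.log (2 * A) ≤ 2 * t₁ := by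
    rw [Real.log_mul (by norm_num) hA.ne']; linarith
  have hlog0 : 0 ≤ Real.log (2 * A) := Real.log_nonneg (by linarith)
  have h5 : Real.log (2 * A) ^ 5 ≤ (2 * t₁) ^ 5 := pow_le_pow_left₀ hlog0 hlog 5
  calc 140000 * Real.log (2 * A) ^ 5 * (2 * A * y ^ (-(1 / 21) : ℝ) + 2 * A * y ^ (-(1 / 21) : ℝ))
      ≤ 140000 * (2 * t₁) ^ 5 * (2 * A * y ^ (-(1 / 21) : ℝ) + 2 * A * y ^ (-(1 / 21) : ℝ)) := by
        apply mul_le_mul_of_nonneg_right _ (by positivity)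
        exact mul_le_mul_of_nonneg_left h5 (by norm_num)
    _ = 1120000 * (2 * t₁) ^ 5 * y ^ (-(1 / 21) : ℝ) * (A / (2 * 3 ^ 0)) := by ring

/-- all scales -/
theorem pb_all {c : ℝ} (hc0 : 0 < c) (hc : c < 1 / 21) : ∃ K : ℝ, 0 < K ∧ ∃ Y₀ : ℝ, 2 ≤ Y₀ ∧
    ∀ y : ℝ, Y₀ ≤ y → ∀ A : ℝ, 0 < A → PB (StayAbove y) A 0 (K * y ^ (-c)) := by
  set γ : ℝ := (1 / 21 - c) / 5 with hγ
  have hγ0 : 0 < γ := by rw [hγ]; linarith
  have hγ1 : γ < 1 / 100 := by rw [hγ]; linarith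
  obtain ⟨B, hB⟩ := exists_nat_ge (c / γ)
  have hBγ : c ≤ γ * (B + 1 : ℕ) := by
    rw [div_le_iff₀ hγ0] at hB
    push_cast
    nlinarith
  obtain ⟨K, hK, hscale⟩ := from_scale (B + 1) (by omega) (d := 1) odd_one isCoprime_one_left
  -- large `y`
  have e1 : ∀ᶠ y : ℝ in Filter.atTop, 5000 ≤ y ^ γ :=
    (tendsto_rpow_atTop hγ0).eventually_ge_atTop 5000
  have e2 : ∀ᶠ y : ℝ in Filter.atTop, ‖Real.log y‖ ≤ 0.39 * ‖y ^ γ‖ :=
    (isLittleO_log_rpow_atTop hγ0).bound (by norm_num)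
  obtain ⟨Y₁, hY₁⟩ := Filter.eventually_atTop.1 (e1.and e2)
  refine ⟨35840000 + K / 0.8 ^ (B + 1), by positivity, max Y₁ 256, by
    refine le_trans ?_ (le_max_right _ _); norm_num, fun y hy A hA => ?_⟩
  obtain ⟨h1, h2⟩ := hY₁ y (le_trans (le_max_left _ _) hy)
  have hy256 : 256 ≤ y := le_trans (le_max_right _ _) hy
  have hy0 : 0 < y := by linarith
  set t₁ := y ^ γ with ht₁
  have ht₁0 : 0 < t₁ := by linarith
  have hlogy : Real.log y ≤ 0.39 * t₁ := by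
    rw [Real.norm_eq_abs, Real.norm_eq_abs, abs_of_pos ht₁0] at h2
    exact (le_abs_self _).trans h2
  have hy2 : 16 * t₁ ^ 2 ≤ y := by
    have h3 : t₁ ^ 2 ≤ Real.sqrt y := by
      rw [ht₁, ← Real.rpow_natCast, ← Real.rpow_mul hy0.le, Real.sqrt_eq_rpow]
      apply Real.rpow_le_rpow_of_exponent_le (by linarith)
      push_cast
      linarith
    have h4 : 16 ≤ Real.sqrt y := Real.le_sqrt_of_sq_le (by linarith)
    have h5 : Real.sqrt y * Real.sqrt y = y := Real.mul_self_sqrt hy0.le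
    nlinarith
  have hpow : t₁ ^ 5 * y ^ (-(1 / 21) : ℝ) = y ^ (-c) := by
    rw [ht₁, ← Real.rpow_natCast, ← Real.rpow_mul hy0.le, ← Real.rpow_add hy0]
    congr 1
    rw [hγ]; push_cast; ring
  have hyc : 0 < y ^ (-c) := Real.rpow_pos_of_pos hy0 _
  have hyp : 0 < y ^ (-(1 / 21) : ℝ) := Real.rpow_pos_of_pos hy0 _
  have hρ : 1120000 * (2 * t₁) ^ 5 * y ^ (-(1 / 21) : ℝ) = 35840000 * y ^ (-c) := by
    rw [← hpow]; ring
  rcases le_or_gt (Real.log A) t₁ with hcase | hcase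
  · intro u v hu
    refine (pb_low (t₁ := t₁) (by linarith) (by linarith) hA hcase u v hu).trans ?_
    apply mul_le_mul_of_nonneg_right _ (by positivity)
    rw [hρ, add_mul]
    have : 0 ≤ K / 0.8 ^ (B + 1) * y ^ (-c) := by positivity
    linarith
  · have h3 := hscale t₁ (by linarith) (StayAbove y) (stay_fwd y)
      (1120000 * (2 * t₁) ^ 5 * y ^ (-(1 / 21) : ℝ)) (by positivity)
      (fun A' hA' hlo hhi m hm => by
        have h4 := pb_mid (y := y) (t₁ := t₁) (by linarith) h1 hlogy hy2 hA' hlo hhi hm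
        intro u v hu
        refine (h4 u v hu).trans ?_
        apply mul_le_mul_of_nonneg_right _ (by positivity)
        apply mul_le_mul_of_nonneg_right _ hyp.le
        apply mul_le_mul_of_nonneg_right _ (by positivity)
        norm_num) A hA (by linarith) 0 (by
          have : 0 ≤ Real.log A := by linarith
          simpa using this)
    intro u v hu
    refine (h3 u v hu).trans ?_
    apply mul_le_mul_of_nonneg_right _ (by positivity)
    rw [hρ, add_mul]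
    have h5 : K / (0.8 * t₁) ^ (B + 1) ≤ K / 0.8 ^ (B + 1) * y ^ (-c) := by
      rw [mul_pow, ← div_div, div_eq_mul_inv _ (t₁ ^ (B + 1))]
      apply mul_le_mul_of_nonneg_left _ (by positivity)
      rw [ht₁, ← Real.rpow_natCast, ← Real.rpow_mul hy0.le, ← Real.rpow_neg hy0.le]
      apply Real.rpow_le_rpow_of_exponent_le (by linarith)
      linarith
    linarith

/-- THE THEOREM, for the Collatz map `n ↦ n/2`, `3n+1` -/
theorem power_saving {c : ℝ} (hc0 : 0 < c) (hc : c < 1 / 21) : ∃ C : ℝ, 0 < C ∧ ∀ X y : ℝ, 1 ≤ X → 1 ≤ y →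
    ({n : ℕ | 1 ≤ n ∧ (n : ℝ) ≤ X ∧ ∀ k : ℕ, y < ((Cz^[k] n : ℕ) : ℝ)}.ncard : ℝ) ≤ C * X / y ^ c := by
  classical
  obtain ⟨K, hK, Y₀, hY₀, hpb⟩ := pb_all hc0 hc
  refine ⟨2 * K + Y₀, by linarith, fun X y hX hy => ?_⟩
  have hy0 : 0 < y := by linarith
  have hyc : 0 < y ^ c := Real.rpow_pos_of_pos hy0 _
  have hfin : {n : ℕ | 1 ≤ n ∧ (n : ℝ) ≤ X ∧ ∀ k : ℕ, y < ((Cz^[k] n : ℕ) : ℝ)}.Finite := by
    apply (Set.finite_Icc 1 ⌊X⌋₊).subset
    rintro n ⟨h1, h2, -⟩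
    exact ⟨h1, Nat.le_floor h2⟩
  rcases lt_or_ge y Y₀ with hsm | hbig
  · have h1 : ({n : ℕ | 1 ≤ n ∧ (n : ℝ) ≤ X ∧ ∀ k : ℕ, y < ((Cz^[k] n : ℕ) : ℝ)}.ncard : ℝ) ≤ X := by
      have h2 : {n : ℕ | 1 ≤ n ∧ (n : ℝ) ≤ X ∧ ∀ k : ℕ, y < ((Cz^[k] n : ℕ) : ℝ)} ⊆
          ((Icc 1 ⌊X⌋₊ : Finset ℕ) : Set ℕ) := by
        rintro n ⟨h1, h2, -⟩
        rw [coe_Icc]
        exact ⟨h1, Nat.le_floor h2⟩
      have h3 := Set.ncard_le_ncard h2 (Finset.finite_toSet _)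
      rw [Set.ncard_coe_finset, Nat.card_Icc, Nat.add_sub_cancel] at h3
      calc _ ≤ (⌊X⌋₊ : ℝ) := by exact_mod_cast h3
        _ ≤ X := Nat.floor_le (by linarith)
    refine h1.trans ?_
    rw [le_div_iff₀ hyc]
    have h4 : y ^ c ≤ Y₀ := by
      calc y ^ c ≤ y ^ (1 : ℝ) := Real.rpow_le_rpow_of_exponent_le hy (by linarith)
        _ = y := Real.rpow_one _
        _ ≤ Y₀ := hsm.le
    have h5 : X * y ^ c ≤ X * (2 * K + Y₀) := mul_le_mul_of_nonneg_left (by linarith) (by linarith)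
    linarith
  · have hδ : 0 ≤ K * y ^ (-c) := by positivity
    have h1 := all_count' (S := StayAbove y) hδ (fun A hA => hpb y hbig A hA) (stay_two y)
      (X := 2 * X) (by linarith)
    have hsub : ((fun n : ℕ => (n : ℤ)) '' {n : ℕ | 1 ≤ n ∧ (n : ℝ) ≤ X ∧ ∀ k : ℕ, y < ((Cz^[k] n : ℕ) : ℝ)})
        ⊆ (pos (StayAbove y) (2 * X) : Set ℤ) := by
      rintro _ ⟨n, ⟨hn1, hnX, hnk⟩, rfl⟩
      rw [mem_coe, mem_pos]
      have hn1' : (1 : ℤ) ≤ (n : ℤ) := by exact_mod_cast hn1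
      refine ⟨⟨hn1', ?_⟩, hn1', ?_⟩
      · push_cast; linarith
      · intro k; simpa using hnk k
    have h2 := Set.ncard_le_ncard hsub (Finset.finite_toSet _)
    rw [Set.ncard_image_of_injective _ Nat.cast_injective, Set.ncard_coe_finset] at h2
    have h3 : ({n : ℕ | 1 ≤ n ∧ (n : ℝ) ≤ X ∧ ∀ k : ℕ, y < ((Cz^[k] n : ℕ) : ℝ)}.ncard : ℝ) ≤
        ((pos (StayAbove y) (2 * X)).card : ℝ) := by exact_mod_cast h2
    refine h3.trans (h1.trans ?_)
    rw [le_div_iff₀ hyc]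
    have h4 : y ^ (-c) * y ^ c = 1 := by rw [← Real.rpow_add hy0, neg_add_cancel, Real.rpow_zero]
    calc K * y ^ (-c) * (2 * X) * y ^ c = 2 * K * X * (y ^ (-c) * y ^ c) := by ring
      _ = 2 * K * X := by rw [h4, mul_one]
      _ ≤ _ := by nlinarith

end Pool.Agent.H828R3.PS
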