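import Pool.Agent.H499R2.NDTao

/-! Restarting the iteration over the scales of `H499R2.ND` at an arbitrary scale. -/

set_option autoImplicit false

namespace Pool.Agent.H828R3.PS

open Pool.Agent.H320R2.PD Pool.Agent.H499R2.ND Finset

/-- ALL SCALES ABOVE A STARTING SCALE -/
theorem from_scale (B : ℕ) (hB : 1 ≤ B) {d : ℤ} (hd : Odd d) (hd3 : IsCoprime d 3) :
    ∃ K : ℝ, 0 < K ∧ ∀ t₁ : ℝ, 1250 ≤ t₁ → ∀ S : Set ℤ, Fwd d S → ∀ ρ : ℝ, 0 ≤ ρ →
      (∀ A : ℝ, 0 < A → 0.8 * t₁ ≤ Real.log A → Real.log A ≤ t₁ → ∀ m : ℕ,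
        (m : ℝ) ^ 2 ≤ Real.log A → PB S A m ρ) →
      ∀ A : ℝ, 0 < A → 0.8 * t₁ ≤ Real.log A → ∀ m : ℕ, (m : ℝ) ^ 2 ≤ Real.log A →
        PB S A m (ρ + K / (0.8 * t₁) ^ B) := by
  obtain ⟨C, hC, herr⟩ := err_bound B d
  refine ⟨20 * C, by positivity, ?_⟩
  intro t₁ ht₁ S hS ρ hρ0 hbase
  set t0 := 0.8 * t₁ with ht0def
  have ht0pos : 0 < t0 := by linarith
  have ht0 : 1000 ≤ t0 := by linarith
  have hpt0 : 0 < t0 ^ B := by positivity
  have hmono : ∀ s : ℝ, t0 ≤ s → 1 / s ^ B ≤ 1 / t0 ^ B := fun s hs =>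
    one_div_le_one_div_of_le hpt0 (pow_le_pow_left₀ ht0pos.le hs B)
  have h2t0 : 2 / t0 ^ B = 2 * (1 / t0 ^ B) := by ring
  have hnn : ∀ s : ℝ, t0 ≤ s → 0 ≤ 10 * C * (2 / t0 ^ B - 1 / s ^ B) := by
    intro s hs
    have h1 := hmono s hs
    have h2 : 0 < 1 / t0 ^ B := by positivity
    rw [h2t0]
    apply mul_nonneg (by positivity)
    linarith
  have main : ∀ n : ℕ, ∀ A : ℝ, 0 < A → t0 ≤ Real.log A → Real.log A ≤ t₁ + n → ∀ m : ℕ,
      (m : ℝ) ^ 2 ≤ Real.log A → PB S A m (ρ + 10 * C * (2 / t0 ^ B - 1 / (Real.log A) ^ B)) := by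
    intro n
    induction n with
    | zero =>
      intro A hA hlo hlog m hm u v hu
      rw [Nat.cast_zero, add_zero] at hlog
      refine (hbase A hA hlo hlog m hm u v hu).trans ?_
      apply mul_le_mul_of_nonneg_right _ (by positivity)
      linarith [hnn _ hlo]
    | succ n ih =>
      intro A hA hlo hlog m hm
      set t := Real.log A with htdef
      rcases le_or_gt t t₁ with hcase | hcase
      · intro u v hu
        refine (hbase A hA hlo hcase m hm u v hu).trans ?_
        apply mul_le_mul_of_nonneg_right _ (by positivity)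
        linarith [hnn _ hlo]
      have htpos : 0 < t := by linarith
      have ht1000 : 1000 ≤ t := by linarith
      obtain ⟨k, hk⟩ : ∃ k : ℕ, k = ⌊t / 2⌋₊ := ⟨_, rfl⟩
      obtain ⟨m', hm'⟩ : ∃ m' : ℕ, m' = ⌊Real.sqrt (0.8 * t)⌋₊ := ⟨_, rfl⟩
      have hk2 : t / 2 - 1 ≤ k := by rw [hk]; linarith [Nat.lt_floor_add_one (t / 2)]
      have hk1N : 1 ≤ k := by
        have : (1 : ℝ) ≤ k := by linarith
        exact_mod_cast this
      have hm'sq : (m' : ℝ) ^ 2 ≤ 0.8 * t := by
        have h1 : (m' : ℝ) ≤ Real.sqrt (0.8 * t) := by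
          rw [hm']; exact Nat.floor_le (Real.sqrt_nonneg _)
        calc (m' : ℝ) ^ 2 ≤ (Real.sqrt (0.8 * t)) ^ 2 :=
              pow_le_pow_left₀ (Nat.cast_nonneg _) h1 2
          _ = 0.8 * t := Real.sq_sqrt (by linarith)
      have hm'k : m' ≤ k := by
        have : (m' : ℝ) ≤ k := by
          have h0 : (0 : ℝ) ≤ m' := Nat.cast_nonneg _
          by_contra hcon
          push Not at hcon
          nlinarith
        exact_mod_cast this
      have hE := herr A hA ht1000 k m m' hm hk hm'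
      rw [← htdef] at hE
      have hpt : 0 < t ^ B := by positivity
      have hCt : C / t ^ B = C * (1 / t ^ B) := by ring
      have h9 : t0 ≤ 0.9 * t := by linarith
      have hρ : 0 ≤ ρ + 10 * C * (2 / t0 ^ B - 1 / (0.9 * t) ^ B) := by
        linarith [hnn _ h9]
      have hst := stage hd hd3 hS hA hk1N hm'k (m := m) hρ (fun T hT1 hT2 => by
        have hn := next_scale hA ht1000 hk hT1 hT2
        set A' := A * 3 ^ k / 2 ^ T with hA'
        have hA'pos : 0 < A' := by positivity
        have hlo' : t0 ≤ Real.log A' := by linarith [hn.1]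
        have hih := ih A' hA'pos hlo' (by
          have h9' : Real.log A' ≤ 0.9 * t := hn.2
          have : t ≤ t₁ + (n + 1 : ℕ) := hlog
          push_cast at this
          have hn0 : (0 : ℝ) ≤ n := Nat.cast_nonneg n
          linarith) m' (by linarith [hn.1])
        intro u v hu
        refine (hih u v hu).trans ?_
        apply mul_le_mul_of_nonneg_right _ (by positivity)
        have h5 : 10 * C * (2 / t0 ^ B - 1 / (Real.log A') ^ B) ≤
            10 * C * (2 / t0 ^ B - 1 / (0.9 * t) ^ B) := by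
          apply mul_le_mul_of_nonneg_left _ (by positivity)
          have : 1 / (0.9 * t) ^ B ≤ 1 / (Real.log A') ^ B :=
            one_div_le_one_div_of_le (pow_pos (by linarith) B) (pow_le_pow_left₀ (by linarith) hn.2 B)
          linarith
        linarith)
      intro u v hu
      refine (hst u v hu).trans ?_
      apply mul_le_mul_of_nonneg_right _ (by positivity)
      have h1 := pow_09 B hB htpos
      have h2 := mul_le_mul_of_nonneg_left h1 (by positivity : 0 ≤ 10 * C)
      rw [mul_sub, mul_sub]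
      have h3 : 10 * C * ((11 / 10) * (1 / t ^ B)) = 10 * C * (1 / t ^ B) + C * (1 / t ^ B) := by ring
      linarith
  intro A hA hlo m hm
  obtain ⟨n, hn⟩ := exists_nat_ge (Real.log A - t₁)
  have h1 := main n A hA hlo (by linarith) m hm
  intro u v hu
  refine (h1 u v hu).trans ?_
  apply mul_le_mul_of_nonneg_right _ (by positivity)
  have : 0 < 1 / (Real.log A) ^ B := by
    have : 0 < Real.log A := by linarith
    positivity
  have h2 : 20 * C / t0 ^ B = 10 * C * (2 / t0 ^ B) := by ring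
  rw [h2]
  have h3 : 10 * C * (2 / t0 ^ B - 1 / (Real.log A) ^ B) ≤ 10 * C * (2 / t0 ^ B) := by
    apply mul_le_mul_of_nonneg_left _ (by positivity)
    linarith
  linarith

end Pool.Agent.H828R3.PS
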