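import Pool.Agent.H828R3.PS.Cls
import Pool.Agent.H828R3.PS.Scale
import Pool.Agent.H499R2.NDFinal
import Pool.Agent.H828R3.Exc.UpR

/-! The density bounds at the starting scales. -/

set_option autoImplicit false

namespace Pool.Agent.H828R3.PS

open Pool.Agent.H320R2.PD Pool.Agent.H499R2.ND Finset
open Pool.Agent.Helper894.Collatz (T)
open Pool.Agent.H377R2 (rho rho_pos rho_lt_one)

theorem iter_Cz (k : ℕ) : ∀ n : ℕ, ∃ o : ℕ, Cz^[o] n = T^[k] n := by
  induction k with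
  | zero => intro n; exact ⟨0, rfl⟩
  | succ k ih =>
    intro n
    obtain ⟨o, ho⟩ := ih (T n)
    by_cases h : n % 2 = 0
    · refine ⟨o + 1, ?_⟩
      rw [Function.iterate_succ_apply, Function.iterate_succ_apply, ← ho]
      congr 1
      simp only [Cz, T]
      rw [if_pos h, if_pos h]
    · refine ⟨o + 2, ?_⟩
      rw [Function.iterate_succ_apply, Function.iterate_succ_apply, Function.iterate_succ_apply, ← ho]
      congr 1
      simp only [Cz, T]
      rw [if_neg h, if_neg h, if_pos (by omega)]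

theorem stayT {y : ℝ} {x : ℤ} (hx : x ∈ StayAbove y) (k : ℕ) : y < ((T^[k] x.toNat : ℕ) : ℝ) := by
  obtain ⟨o, ho⟩ := iter_Cz k x.toNat
  rw [← ho]
  exact hx.2 o

/-- `l = ⌊log₂ y⌋` -/
theorem exists_l {y : ℝ} (hy : 1 ≤ y) : ∃ l : ℕ, (2 : ℝ) ^ l ≤ y ∧ y < 2 * 2 ^ l := by
  have hy0 : 0 < y := by linarith
  have hfy : ⌊y⌋₊ ≠ 0 := by
    have : 1 ≤ ⌊y⌋₊ := Nat.le_floor (by exact_mod_cast hy)
    omega
  refine ⟨Nat.log 2 ⌊y⌋₊, ?_, ?_⟩
  · have h1 : 2 ^ (Nat.log 2 ⌊y⌋₊) ≤ ⌊y⌋₊ := Nat.pow_log_le_self 2 hfy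
    have h2 : ((2 : ℝ) ^ (Nat.log 2 ⌊y⌋₊)) ≤ ⌊y⌋₊ := by exact_mod_cast h1
    exact h2.trans (Nat.floor_le hy0.le)
  · have h1 : ⌊y⌋₊ < 2 ^ (Nat.log 2 ⌊y⌋₊ + 1) := Nat.lt_pow_succ_log_self (by norm_num) _
    have h2 : ((⌊y⌋₊ + 1 : ℕ) : ℝ) ≤ 2 ^ (Nat.log 2 ⌊y⌋₊ + 1) := by exact_mod_cast h1
    have h3 := Nat.lt_floor_add_one y
    push_cast at h2
    rw [pow_succ] at h2
    linarith

/-- `rho ^ l ≤ 2 y^(-1/21)` -/
theorem rho_le {y : ℝ} (hy : 1 ≤ y) {l : ℕ} (hl : y ≤ 2 * 2 ^ l) : rho ^ l ≤ 2 * y ^ (-(1 / 21) : ℝ) := by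
  have hy0 : 0 < y := by linarith
  have hyp : 0 < y ^ (-(1 / 21) : ℝ) := Real.rpow_pos_of_pos hy0 _
  refine (Pool.Agent.H828R3.Exc.rho_rpow l).trans ?_
  have h1 : y / 2 ≤ 2 ^ l := by linarith
  have h2 : ((2 : ℝ) ^ l) ^ (-(1 / 21) : ℝ) ≤ (y / 2) ^ (-(1 / 21) : ℝ) :=
    Real.rpow_le_rpow_of_nonpos (by positivity) h1 (by norm_num)
  refine h2.trans ?_
  rw [Real.div_rpow hy0.le (by norm_num), div_eq_mul_inv, mul_comm]
  apply mul_le_mul_of_nonneg_right _ hyp.le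
  rw [← Real.rpow_neg (by norm_num), neg_neg]
  calc (2 : ℝ) ^ ((1 : ℝ) / 21) ≤ 2 ^ (1 : ℝ) :=
        Real.rpow_le_rpow_of_exponent_le (by norm_num) (by norm_num)
    _ = 2 := Real.rpow_one _

/-- density bound in classes mod `3^m` -/
theorem pb_cls {y A : ℝ} (hA : 0 < A) {k l m : ℕ} (hkA : (2 : ℝ) ^ k ≤ 4 * A) (hkA2 : 2 * A < 2 ^ k)
    (hly : (2 : ℝ) ^ l ≤ y) (hk1 : 1 ≤ k) (hM : 2 * (k * k) ≤ 2 ^ l) (hlm : l + 42 * m ≤ k) :
    PB (StayAbove y) A m (320 * (k : ℝ) ^ 5 * rho ^ l) := by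
  classical
  intro u v hu
  obtain ⟨c, hc⟩ := cls_unit (StayAbove y) A (2 * A) m hu v
  rw [hc]
  have hr0 := rho_pos
  have hr1 := rho_lt_one
  set q : ℕ := 3 ^ m with hq
  have hq0 : 0 < q := by positivity
  have hqR : ((q : ℕ) : ℝ) = 3 ^ m := by rw [hq]; push_cast; rfl
  set c' : ℕ := (c % (q : ℤ)).toNat with hc'
  set F := cls (StayAbove y) A (2 * A) m 1 c with hF
  set U := F.image Int.toNat with hU
  have hmem : ∀ x ∈ F, 1 ≤ x ∧ (x : ℝ) < 2 * A ∧ x.toNat % q = c' ∧ x ∈ StayAbove y := by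
    intro x hx
    rw [hF, mem_cls] at hx
    obtain ⟨⟨h1, h2⟩, h3, h4, h5⟩ := hx
    have hx1 : 1 ≤ x := h4.1
    refine ⟨hx1, h2, ?_, h4⟩
    have h6 : x % (q : ℤ) = c % (q : ℤ) := by
      have h7 : ((q : ℕ) : ℤ) ∣ x - c := by
        rw [hq]; push_cast
        rwa [one_mul] at h5
      exact Int.emod_eq_emod_iff_emod_sub_eq_zero.2 (Int.emod_eq_zero_of_dvd h7)
    have h8 : ((x.toNat : ℕ) : ℤ) = x := Int.toNat_of_nonneg (by omega)
    have h9 : ((x.toNat % q : ℕ) : ℤ) = ((c' : ℕ) : ℤ) := by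
      rw [hc', Int.toNat_of_nonneg (Int.emod_nonneg _ (by exact_mod_cast hq0.ne'))]
      push_cast
      rw [h8]
      exact h6
    exact_mod_cast h9
  have hcard : F.card = U.card := by
    rw [hU, card_image_of_injOn]
    intro x hx z hz hxz
    have h1 := (hmem x hx).1
    have h2 := (hmem z hz).1
    omega
  have hstay := card_stay_cls k l q c' hq0 hM (by omega) U (by
    intro x hx
    rw [hU, mem_image] at hx
    obtain ⟨z, hz, rfl⟩ := hx
    obtain ⟨h1, h2, h3, h4⟩ := hmem z hz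
    have h5 : ((z.toNat : ℕ) : ℤ) = z := Int.toNat_of_nonneg (by omega)
    refine ⟨by omega, ?_, h3, fun i => ?_⟩
    · have h6 : ((z.toNat : ℕ) : ℝ) < 2 ^ k := by
        have : ((z.toNat : ℤ) : ℝ) < 2 ^ k := by rw [h5]; linarith
        exact_mod_cast this
      exact_mod_cast h6
    · have h6 := stayT h4 i
      have h7 : (2 : ℝ) ^ l ≤ ((T^[i] z.toNat : ℕ) : ℝ) := by linarith
      exact_mod_cast h7)
  rw [hcard]
  refine hstay.trans ?_
  have hkR : (1 : ℝ) ≤ k := by exact_mod_cast hk1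
  have hrk : rho ^ k ≤ rho ^ l / q := by
    rw [le_div_iff₀ (by rw [hqR]; positivity), hqR]
    have h1 : rho ^ k ≤ rho ^ (l + 42 * m) := pow_le_pow_of_le_one hr0.le hr1.le hlm
    have h2 : rho ^ (42 * m) ≤ (1 / 4) ^ m := by
      rw [show 42 * m = 21 * 2 * m by ring, pow_mul, pow_mul]
      apply pow_le_pow_left₀ (by positivity)
      calc (rho ^ 21) ^ 2 ≤ (1 / 2) ^ 2 :=
            pow_le_pow_left₀ (by positivity) Pool.Agent.H828R3.Exc.rho21 2
        _ = _ := by norm_num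
    calc rho ^ k * 3 ^ m ≤ rho ^ (l + 42 * m) * 3 ^ m := mul_le_mul_of_nonneg_right h1 (by positivity)
      _ = rho ^ l * (rho ^ (42 * m) * 3 ^ m) := by rw [pow_add]; ring
      _ ≤ rho ^ l * ((1 / 4) ^ m * 3 ^ m) := by
          apply mul_le_mul_of_nonneg_left _ (by positivity)
          exact mul_le_mul_of_nonneg_right h2 (by positivity)
      _ ≤ rho ^ l * 1 := by
          apply mul_le_mul_of_nonneg_left _ (by positivity)
          rw [← mul_pow]
          exact pow_le_one₀ (by norm_num) (by norm_num)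
      _ = _ := mul_one _
  have h5 : 4 * rho ^ l / q + rho ^ k ≤ 5 * (rho ^ l / q) := by
    have : 4 * rho ^ l / q = 4 * (rho ^ l / q) := by ring
    rw [this]; linarith
  have h6 : 2 * ((k : ℝ) * k + 1) ^ 2 * k ≤ 8 * (k : ℝ) ^ 5 := by
    have h7 : (k : ℝ) * k + 1 ≤ 2 * k ^ 2 := by nlinarith
    calc 2 * ((k : ℝ) * k + 1) ^ 2 * k ≤ 2 * (2 * (k : ℝ) ^ 2) ^ 2 * k := by
          apply mul_le_mul_of_nonneg_right _ (by positivity)
          apply mul_le_mul_of_nonneg_left _ (by norm_num)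
          exact pow_le_pow_left₀ (by positivity) h7 2
      _ = _ := by ring
  have hq3 : (0 : ℝ) < q := by exact_mod_cast hq0
  calc 2 * ((k : ℝ) * k + 1) ^ 2 * k * 2 ^ k * (4 * rho ^ l / q + rho ^ k)
      ≤ (8 * (k : ℝ) ^ 5) * (4 * A) * (5 * (rho ^ l / q)) := by
        apply mul_le_mul _ h5 (by positivity) (by positivity)
        exact mul_le_mul h6 hkA (by positivity) (by positivity)
    _ = 320 * (k : ℝ) ^ 5 * rho ^ l * (A / (2 * 3 ^ m)) := by
        rw [← hqR]; field_simp; ring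

/-- the middle scales -/
theorem pb_mid {y t₁ A : ℝ} (hy : 1 ≤ y) (ht₁ : 5000 ≤ t₁) (hlogy : Real.log y ≤ 0.39 * t₁)
    (hy2 : 16 * t₁ ^ 2 ≤ y) (hA : 0 < A) (hlo : 0.8 * t₁ ≤ Real.log A) (hhi : Real.log A ≤ t₁)
    {m : ℕ} (hm : (m : ℝ) ^ 2 ≤ Real.log A) :
    PB (StayAbove y) A m (640 * (2 * t₁) ^ 5 * y ^ (-(1 / 21) : ℝ)) := by
  set t := Real.log A with ht
  have hl2 := Real.log_two_gt_d9
  have hl2' := Real.log_two_lt_d9
  have ht4 : 4000 ≤ t := by linarith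
  have hA2 : 1 ≤ 2 * A := by
    have : 1 ≤ A := by
      by_contra hcon
      push Not at hcon
      have := Real.log_nonpos hA.le hcon.le
      linarith
    linarith
  obtain ⟨l, hl1, hl3⟩ := exists_l hy
  obtain ⟨k0, hk1, hk3⟩ := exists_l hA2
  set k := k0 + 1 with hk
  have hkA : (2 : ℝ) ^ k ≤ 4 * A := by rw [hk, pow_succ]; linarith
  have hkA2 : 2 * A < 2 ^ k := by rw [hk, pow_succ]; linarith
  have hk1' : 1 ≤ k := by omega
  -- sizes
  have hkt : (k : ℝ) ≤ 2 * t := by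
    have h1 : (k : ℝ) * Real.log 2 ≤ Real.log (4 * A) := by
      rw [← Real.log_pow]
      exact Real.log_le_log (by positivity) hkA
    rw [Real.log_mul (by norm_num) hA.ne', ← ht, show (4 : ℝ) = 2 ^ 2 by norm_num, Real.log_pow] at h1
    push_cast at h1
    nlinarith
  have hkt2 : t < k * Real.log 2 := by
    have h1 : Real.log (2 * A) < (k : ℝ) * Real.log 2 := by
      rw [← Real.log_pow]
      exact Real.log_lt_log (by positivity) hkA2
    rw [Real.log_mul (by norm_num) hA.ne', ← ht] at h1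
    linarith
  have hlt : (l : ℝ) * Real.log 2 ≤ 0.4875 * t := by
    have h1 : (l : ℝ) * Real.log 2 ≤ Real.log y := by
      rw [← Real.log_pow]
      exact Real.log_le_log (by positivity) hl1
    linarith
  have hm2 : 29.2 * (m : ℝ) ≤ 0.5125 * t := by
    have h0 : (0 : ℝ) ≤ m := Nat.cast_nonneg m
    have h1 : (29.2 * (m : ℝ)) ^ 2 ≤ (0.5125 * t) ^ 2 := by nlinarith
    exact (pow_le_pow_iff_left₀ (by positivity) (by positivity) (by norm_num)).1 h1
  have hlm : l + 42 * m ≤ k := by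
    have h1 : ((l : ℝ) + 42 * m) * Real.log 2 < k * Real.log 2 := by
      have h2 : 42 * (m : ℝ) * Real.log 2 ≤ 29.2 * m := by
        have h0 : (0 : ℝ) ≤ m := Nat.cast_nonneg m
        nlinarith
      linarith
    have h3 : (l : ℝ) + 42 * m < k := lt_of_mul_lt_mul_right h1 (by linarith)
    have h4 : ((l + 42 * m : ℕ) : ℝ) < k := by push_cast; exact h3
    have : l + 42 * m < k := by exact_mod_cast h4
    omega
  have hM : 2 * (k * k) ≤ 2 ^ l := by
    have h1 : (k : ℝ) * k ≤ (2 * t₁) * (2 * t₁) :=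
      mul_le_mul (by linarith) (by linarith) (Nat.cast_nonneg k) (by linarith)
    have h2 : 2 * ((k : ℝ) * k) ≤ 2 ^ l := by nlinarith
    exact_mod_cast h2
  have hmain := pb_cls hA hkA hkA2 hl1 hk1' hM hlm
  intro u v hu
  refine (hmain u v hu).trans ?_
  apply mul_le_mul_of_nonneg_right _ (by positivity)
  have h1 := rho_le hy hl3.le
  have h2 : (k : ℝ) ^ 5 ≤ (2 * t₁) ^ 5 := pow_le_pow_left₀ (by positivity) (by linarith) 5
  have hr0 := rho_pos
  calc 320 * (k : ℝ) ^ 5 * rho ^ l ≤ 320 * (2 * t₁) ^ 5 * (2 * y ^ (-(1 / 21) : ℝ)) := by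
        apply mul_le_mul _ h1 (by positivity) (by positivity)
        exact mul_le_mul_of_nonneg_left h2 (by norm_num)
    _ = _ := by ring

end Pool.Agent.H828R3.PS
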